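import Pool.Agent.Y722.PC.Curves

/-!
# Products of plane curves: the L-function of `H²` near `s = 2`, in mean square
-/

set_option autoImplicit false

namespace Pool.Agent.Y722.PC

open Finset Pool.Agent.Y722.HS Pool.Agent.Y722.LS

section bad
variable {ι : Type} [Fintype ι] [DecidableEq ι]

open Classical in
/-- The indicator of the zeros of a polynomial. -/
noncomputable def BZ (P : MvPolynomial ι ℤ) (p : ℕ) (c : ι → ZMod p) : ℝ :=
  if MvPolynomial.eval₂ (Int.castRingHom (ZMod p)) c P = 0 then 1 else 0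

theorem EM_BZ (P : MvPolynomial ι ℤ) (c0 : ι → ℤ) (hP : MvPolynomial.eval c0 P ≠ 0) (p : ℕ)
    [Fact p.Prime] : EM p (fun c => BZ P p c) ≤
      (P.totalDegree + |(MvPolynomial.eval c0 P : ℝ)|) / p := by
  classical
  have hp0 : (0 : ℝ) < p := by exact_mod_cast (Fact.out : p.Prime).pos
  have hdeg0 : (0 : ℝ) ≤ P.totalDegree := by positivity
  have hev0 : (0 : ℝ) ≤ |(MvPolynomial.eval c0 P : ℝ)| := abs_nonneg _
  have hle1 : EM p (fun c : ι → ZMod p => BZ P p c) ≤ 1 := by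
    rw [← EM_const (ι := ι) p 1]
    apply EM_mono
    intro c
    unfold BZ
    split_ifs <;> norm_num
  by_cases hdvd : (p : ℤ) ∣ MvPolynomial.eval c0 P
  · refine hle1.trans ?_
    rw [le_div_iff₀ hp0, one_mul]
    have h1 : (p : ℤ) ≤ |MvPolynomial.eval c0 P| :=
      Int.le_of_dvd (abs_pos.mpr hP) ((dvd_abs _ _).mpr hdvd)
    have h2 : (p : ℝ) ≤ |(MvPolynomial.eval c0 P : ℝ)| := by exact_mod_cast h1
    linarith
  · have h1 := card_zeros P c0 p hdvd
    have h2 : ∑ c : ι → ZMod p, BZ P p c = ((Nat.card {c : ι → ZMod p //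
        MvPolynomial.eval₂ (Int.castRingHom (ZMod p)) c P = 0} : ℕ) : ℝ) := by
      rw [Nat.card_eq_fintype_card, Fintype.card_subtype]
      simp [BZ]
    have hM : (0 : ℝ) < (p : ℝ) ^ Fintype.card ι := by positivity
    unfold EM
    rw [h2, div_le_div_iff₀ hM hp0]
    refine h1.trans ?_
    gcongr
    linarith

end bad

section
variable {k r : ℕ} {ι : Fin k → Type} [∀ i, Fintype (ι i)] [∀ i, DecidableEq (ι i)]

/-- `p + 1 - #C(𝔽_p)` for the plane curve `C : ∑ c i f i = 0`. -/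
noncomputable def tr {J : Type} [Fintype J] (f : J → MvPolynomial (Fin 3) ℤ) (p : ℕ)
    (c : J → ZMod p) : ℝ :=
  (p : ℝ) + 1 - (lcone (n := 2) f c : ℝ) / ((p : ℝ) - 1)

/-- The pairs `(i, j)` with `i < j`. -/
def prs (r : ℕ) : Finset (Fin r × Fin r) := Finset.univ.filter (fun q => q.1 < q.2)

/-- The number of the pairs of equal factors. -/
def eqPairs (σ : Fin r → Fin k) : ℕ := ((prs r).filter (fun q => σ q.1 = σ q.2)).card

/-- `γ p j`, `j < b`, are the eigenvalues of the geometric Frobenius at `p` on the inertia invariants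
of `H²` of the product `Z = C_{σ 1} × ⋯ × C_{σ r}` of plane curves `C_i : ∑ c ⟨i, j⟩ f i j = 0`, zeros
added if necessary: for all primes `p` one has `|γ p j| ≤ p`, and if the curves are smooth modulo `p`,
then (Künneth) `∑ γ p j = r p + ∑_{i < j} a_p(C_{σ i}) a_p(C_{σ j})` where
`a_p(C) = p + 1 - #C(𝔽_p)`. -/
structure IsFrobenius2 (f : ∀ i, ι i → MvPolynomial (Fin 3) ℤ) (σ : Fin r → Fin k) (b : ℕ)
    (c : (Σ i, ι i) → ℤ) (γ : ℕ → Fin b → ℂ) : Prop where
  bound : ∀ p : ℕ, p.Prime → ∀ j, ‖γ p j‖ ≤ (p : ℝ)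
  count : ∀ (p : ℕ) [Fact p.Prime],
    (∀ i, IsSmooth (MvPolynomial.map (algebraMap (ZMod p) (AlgebraicClosure (ZMod p)))
      (lform (n := 2) (f i) (red p (fun j => c ⟨i, j⟩))))) →
      ∑ j, γ p j = ((r * p + ∑ q ∈ prs r, tr (f (σ q.1)) p (red p (fun j => c ⟨σ q.1, j⟩)) *
        tr (f (σ q.2)) p (red p (fun j => c ⟨σ q.2, j⟩)) : ℝ) : ℂ)

theorem tr_eq {J : Type} [Fintype J] [DecidableEq J] (f : J → MvPolynomial (Fin 3) ℤ) (p : ℕ)
    [Fact p.Prime] (c : J → ZMod p) : tr f p c = -tt f p c := by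
  have hp1 : (0 : ℝ) < (p : ℝ) - 1 := by
    have : (1 : ℝ) < p := by exact_mod_cast (Fact.out : p.Prime).one_lt
    linarith
  unfold tr tt
  field_simp
  ring

/-- One term. -/
noncomputable def nq (f : ∀ i, ι i → MvPolynomial (Fin 3) ℤ) (σ : Fin r → Fin k) (p : ℕ)
    (q : Fin r × Fin r) (c : (Σ i, ι i) → ZMod p) : ℝ :=
  tt (f (σ q.1)) p (fun j => c ⟨σ q.1, j⟩) * tt (f (σ q.2)) p (fun j => c ⟨σ q.2, j⟩) -
    (if σ q.1 = σ q.2 then (p : ℝ) else 0)

/-- The normalised trace without its mean. -/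
noncomputable def NP (f : ∀ i, ι i → MvPolynomial (Fin 3) ℤ) (σ : Fin r → Fin k) (p0 p : ℕ)
    (c : (Σ i, ι i) → ZMod p) : ℝ :=
  if p < p0 then 0 else (1 / (p : ℝ) ^ 2) * ∑ q ∈ prs r, nq f σ p q c

open Classical in
/-- The indicator of bad reduction. -/
noncomputable def BP (P : ∀ i, MvPolynomial (ι i) ℤ) (p0 p : ℕ) (c : (Σ i, ι i) → ZMod p) : ℝ :=
  if p < p0 ∨ ∃ i, MvPolynomial.eval₂ (Int.castRingHom (ZMod p)) (fun j => c ⟨i, j⟩) (P i) = 0
    then 1 else 0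

variable {f : ∀ i, ι i → MvPolynomial (Fin 3) ℤ} {d : Fin k → ℕ} {C0 : ℝ}

theorem mean_nq (hC0 : 0 ≤ C0) (σ : Fin r → Fin k) (p : ℕ) [Fact p.Prime]
    (hf : ∀ i j, (f i j).IsHomogeneous (d i)) (hs : ∀ i, Separates4 (n := 2) (f i) p)
    (hZ : ∀ i, (bcone (n := 2) (f i) p : ℝ) ≤ C0 * p) (q : Fin r × Fin r) :
    |EM p (fun c => nq f σ p q c)| ≤ 2 * (1 + C0) ^ 2 := by
  have hp0 : (0 : ℝ) < p := by exact_mod_cast (Fact.out : p.Prime).pos
  have hp1 : (1 : ℝ) ≤ p := by exact_mod_cast (Fact.out : p.Prime).one_lt.le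
  unfold nq
  by_cases h : σ q.1 = σ q.2
  · have h1 : (fun c : (Σ i, ι i) → ZMod p => tt (f (σ q.1)) p (fun j => c ⟨σ q.1, j⟩) *
        tt (f (σ q.2)) p (fun j => c ⟨σ q.2, j⟩) - (if σ q.1 = σ q.2 then (p : ℝ) else 0)) =
        fun c => (fun x => tt (f (σ q.1)) p x ^ 2) (fun j => c ⟨σ q.1, j⟩) + (-(p : ℝ)) := by
      funext c
      rw [← h, if_pos rfl]
      ring
    rw [h1, EM_add, EM_one p (σ q.1) (fun x => tt (f (σ q.1)) p x ^ 2), EM_const,
      EM_tt_sq (hf (σ q.1)) (hs (σ q.1))]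
    obtain ⟨m0, m1⟩ := mu_bd (f := f (σ q.1)) (p := p) hC0 (hZ (σ q.1))
    set B : ℝ := ((bcone (n := 2) (f (σ q.1)) p : ℕ) : ℝ) with hB
    have hB0 : 0 ≤ B := by rw [hB]; positivity
    have hB1 : B ≤ C0 * p := hZ (σ q.1)
    have h2 : ((p : ℝ) ^ 3 - 1 - B) / (p : ℝ) ^ 2 + mu (f (σ q.1)) p ^ 2 + -(p : ℝ) =
        mu (f (σ q.1)) p ^ 2 - (1 + B) / (p : ℝ) ^ 2 := by
      field_simp
      ring
    rw [h2]
    have h3 : (1 + B) / (p : ℝ) ^ 2 ≤ 1 + C0 := by
      rw [div_le_iff₀ (by positivity)]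
      have : (p : ℝ) ≤ (p : ℝ) ^ 2 := by nlinarith
      nlinarith
    have h4 : 0 ≤ (1 + B) / (p : ℝ) ^ 2 := by positivity
    have h5 : mu (f (σ q.1)) p ^ 2 ≤ (1 + C0) ^ 2 := by gcongr
    have h6 : 0 ≤ mu (f (σ q.1)) p ^ 2 := sq_nonneg _
    rw [abs_le]
    constructor <;> nlinarith
  · have h1 : (fun c : (Σ i, ι i) → ZMod p => tt (f (σ q.1)) p (fun j => c ⟨σ q.1, j⟩) *
        tt (f (σ q.2)) p (fun j => c ⟨σ q.2, j⟩) - (if σ q.1 = σ q.2 then (p : ℝ) else 0)) =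
        fun c => (fun i x => tt (f i) p x) (σ q.1) (fun j => c ⟨σ q.1, j⟩) *
          (fun i x => tt (f i) p x) (σ q.2) (fun j => c ⟨σ q.2, j⟩) := by
      funext c
      rw [if_neg h]
      ring
    rw [h1, EM_pair p (σ q.1) (σ q.2) h (fun i x => tt (f i) p x), EM_tt, EM_tt]
    obtain ⟨m0, m1⟩ := mu_bd (f := f (σ q.1)) (p := p) hC0 (hZ (σ q.1))
    obtain ⟨m2, m3⟩ := mu_bd (f := f (σ q.2)) (p := p) hC0 (hZ (σ q.2))
    rw [abs_of_nonneg (by positivity)]
    calc _ ≤ (1 + C0) * (1 + C0) := by gcongr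
      _ ≤ _ := by nlinarith

theorem sq_nq (hC0 : 0 ≤ C0) (σ : Fin r → Fin k) (p : ℕ) [Fact p.Prime]
    (hf : ∀ i j, (f i j).IsHomogeneous (d i)) (hs : ∀ i, Separates4 (n := 2) (f i) p)
    (hZ : ∀ i, (bcone (n := 2) (f i) p : ℝ) ≤ C0 * p) (q : Fin r × Fin r) :
    EM p (fun c => nq f σ p q c ^ 2) ≤ (98 + 16 * (1 + C0) ^ 4) * (p : ℝ) ^ 2 := by
  have hp0 : (0 : ℝ) < p := by exact_mod_cast (Fact.out : p.Prime).pos
  have h1 : EM p (fun c : (Σ i, ι i) → ZMod p => nq f σ p q c ^ 2) ≤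
      EM p (fun c : (Σ i, ι i) → ZMod p => ((fun x => tt (f (σ q.1)) p x ^ 4)
        (fun j => c ⟨σ q.1, j⟩) +
        (fun x => tt (f (σ q.2)) p x ^ 4) (fun j => c ⟨σ q.2, j⟩)) + 2 * (p : ℝ) ^ 2) := by
    apply EM_mono
    intro c
    unfold nq
    simp only
    set a := tt (f (σ q.1)) p (fun j => c ⟨σ q.1, j⟩)
    set b := tt (f (σ q.2)) p (fun j => c ⟨σ q.2, j⟩)
    have h2 : ∀ e : ℝ, 0 ≤ e → e ≤ p → (a * b - e) ^ 2 ≤ a ^ 4 + b ^ 4 + 2 * (p : ℝ) ^ 2 := by
      intro e e0 e1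
      have h3 : e ^ 2 ≤ (p : ℝ) ^ 2 := by gcongr
      nlinarith [sq_nonneg (a * b + e), sq_nonneg (a ^ 2 - b ^ 2)]
    split_ifs
    · exact h2 p hp0.le le_rfl
    · exact h2 0 le_rfl hp0.le
  refine h1.trans ?_
  rw [EM_add, EM_add, EM_const, EM_one p (σ q.1) (fun x => tt (f (σ q.1)) p x ^ 4),
    EM_one p (σ q.2) (fun x => tt (f (σ q.2)) p x ^ 4)]
  have e1 := EM_tt_four (hf (σ q.1)) (hs (σ q.1)) hC0 (hZ (σ q.1))
  have e2 := EM_tt_four (hf (σ q.2)) (hs (σ q.2)) hC0 (hZ (σ q.2))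
  linarith

theorem EM_sum {J : Type*} {ι : Type*} [Fintype ι] [DecidableEq ι] (p : ℕ) [NeZero p]
    (s : Finset J) (g : J → (ι → ZMod p) → ℝ) :
    EM p (fun c => ∑ j ∈ s, g j c) = ∑ j ∈ s, EM p (g j) := by
  unfold EM
  rw [Finset.sum_comm, Finset.sum_div]

theorem famP (hC0 : 0 ≤ C0) (σ : Fin r → Fin k) (p0 : ℕ) (P : ∀ i, MvPolynomial (ι i) ℤ)
    (c0 : ∀ i, ι i → ℤ) (hP : ∀ i, MvPolynomial.eval (c0 i) (P i) ≠ 0)
    (hf : ∀ i j, (f i j).IsHomogeneous (d i))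
    (hs : ∀ i, ∀ p : ℕ, p.Prime → p0 ≤ p → Separates4 (n := 2) (f i) p)
    (hZ : ∀ i, ∀ p : ℕ, p.Prime → p0 ≤ p → (bcone (n := 2) (f i) p : ℝ) ≤ C0 * p) :
    Fam (1 + p0 + (∑ i, ((P i).totalDegree + |(MvPolynomial.eval (c0 i) (P i) : ℝ)|)) +
      (prs r).card * (2 * (1 + C0) ^ 2) +
      (prs r).card * ((prs r).card * (98 + 16 * (1 + C0) ^ 4)))
      (NP f σ p0) (BP P p0) := by
  classical
  have t1 : (0 : ℝ) ≤ p0 := by positivity
  have t2 : (0 : ℝ) ≤ ∑ i, ((P i).totalDegree + |(MvPolynomial.eval (c0 i) (P i) : ℝ)|) :=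
    Finset.sum_nonneg fun i _ => by positivity
  have t3 : (0 : ℝ) ≤ (prs r).card * (2 * (1 + C0) ^ 2) := by positivity
  have t4 : (0 : ℝ) ≤ (prs r).card * ((prs r).card * (98 + 16 * (1 + C0) ^ 4)) := by positivity
  set A : ℝ := 1 + p0 + (∑ i, ((P i).totalDegree + |(MvPolynomial.eval (c0 i) (P i) : ℝ)|)) +
      (prs r).card * (2 * (1 + C0) ^ 2) +
      (prs r).card * ((prs r).card * (98 + 16 * (1 + C0) ^ 4)) with hA
  refine ⟨by linarith, ?_, ?_, ?_, ?_, ?_⟩
  · intro p hpF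
    have hp := hpF.out
    have hp0 : (0 : ℝ) < p := by exact_mod_cast hp.pos
    by_cases hlt : p < p0
    · have h1 : (fun c : (Σ i, ι i) → ZMod p => NP f σ p0 p c ^ 2) = fun _ => 0 := by
        funext c; simp [NP, hlt]
      rw [h1, EM_const]
      have : 0 ≤ A := by linarith
      positivity
    · have h1 : EM p (fun c : (Σ i, ι i) → ZMod p => NP f σ p0 p c ^ 2) ≤
          EM p (fun c => (1 / (p : ℝ) ^ 4 * (prs r).card) * ∑ q ∈ prs r, nq f σ p q c ^ 2) := by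
        apply EM_mono
        intro c
        rw [NP, if_neg hlt, mul_pow]
        have h2 := sq_sum_le_card_mul_sum_sq (s := prs r) (f := fun q => nq f σ p q c)
        calc (1 / (p : ℝ) ^ 2) ^ 2 * (∑ q ∈ prs r, nq f σ p q c) ^ 2 ≤
              (1 / (p : ℝ) ^ 2) ^ 2 * ((prs r).card * ∑ q ∈ prs r, nq f σ p q c ^ 2) := by gcongr
          _ = _ := by ring
      refine h1.trans ?_
      rw [EM_mul, EM_sum]
      have h3 : ∑ q ∈ prs r, EM p (fun c : (Σ i, ι i) → ZMod p => nq f σ p q c ^ 2) ≤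
          ∑ _q ∈ prs r, (98 + 16 * (1 + C0) ^ 4) * (p : ℝ) ^ 2 :=
        Finset.sum_le_sum fun q _ => sq_nq hC0 σ p hf (fun i => hs i p hp (by omega))
          (fun i => hZ i p hp (by omega)) q
      rw [Finset.sum_const, nsmul_eq_mul] at h3
      calc _ ≤ 1 / (p : ℝ) ^ 4 * (prs r).card *
            ((prs r).card * ((98 + 16 * (1 + C0) ^ 4) * (p : ℝ) ^ 2)) := by gcongr
        _ = ((prs r).card * ((prs r).card * (98 + 16 * (1 + C0) ^ 4))) / (p : ℝ) ^ 2 := by
            field_simp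
        _ ≤ _ := by
            gcongr
            linarith
  · intro p hpF
    have hp := hpF.out
    have hp0 : (0 : ℝ) < p := by exact_mod_cast hp.pos
    by_cases hlt : p < p0
    · have h1 : (fun c : (Σ i, ι i) → ZMod p => NP f σ p0 p c) = fun _ => 0 := by
        funext c; simp [NP, hlt]
      rw [h1, EM_const, abs_zero]
      have : 0 ≤ A := by linarith
      positivity
    · have h1 : (fun c : (Σ i, ι i) → ZMod p => NP f σ p0 p c) =
          fun c => (1 / (p : ℝ) ^ 2) * ∑ q ∈ prs r, nq f σ p q c := by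
        funext c
        rw [NP, if_neg hlt]
      rw [h1, EM_mul, EM_sum, abs_mul, abs_of_pos (by positivity : (0 : ℝ) < 1 / (p : ℝ) ^ 2)]
      have h2 : |∑ q ∈ prs r, EM p (fun c : (Σ i, ι i) → ZMod p => nq f σ p q c)| ≤
          ∑ _q ∈ prs r, 2 * (1 + C0) ^ 2 :=
        (Finset.abs_sum_le_sum_abs _ _).trans (Finset.sum_le_sum fun q _ =>
          mean_nq hC0 σ p hf (fun i => hs i p hp (by omega)) (fun i => hZ i p hp (by omega)) q)
      rw [Finset.sum_const, nsmul_eq_mul] at h2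
      calc _ ≤ 1 / (p : ℝ) ^ 2 * ((prs r).card * (2 * (1 + C0) ^ 2)) := by gcongr
        _ = ((prs r).card * (2 * (1 + C0) ^ 2)) / (p : ℝ) ^ 2 := by ring
        _ ≤ _ := by
            gcongr
            linarith
  · intro p c
    unfold BP
    split_ifs <;> norm_num
  · intro p c
    unfold BP
    split_ifs <;> norm_num
  · intro p hpF
    have hp := hpF.out
    have hp0 : (0 : ℝ) < p := by exact_mod_cast hp.pos
    by_cases hlt : p < p0
    · have hle1 : EM p (fun c : (Σ i, ι i) → ZMod p => BP P p0 p c) ≤ 1 := by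
        rw [← EM_const (ι := (Σ i, ι i)) p 1]
        apply EM_mono
        intro c
        unfold BP
        split_ifs <;> norm_num
      refine hle1.trans ?_
      rw [le_div_iff₀ hp0, one_mul]
      have : (p : ℝ) ≤ p0 := by exact_mod_cast hlt.le
      linarith
    · have h1 : EM p (fun c : (Σ i, ι i) → ZMod p => BP P p0 p c) ≤
          EM p (fun c : (Σ i, ι i) → ZMod p =>
            ∑ i, (fun x => BZ (P i) p x) (fun j => c ⟨i, j⟩)) := by
        apply EM_mono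
        intro c
        unfold BP
        split_ifs with h2
        · obtain ⟨i, hi⟩ := h2.resolve_left hlt
          have h3 : (1 : ℝ) = BZ (P i) p (fun j => c ⟨i, j⟩) := by
            unfold BZ; rw [if_pos hi]
          rw [h3]
          exact Finset.single_le_sum (f := fun i => BZ (P i) p (fun j => c ⟨i, j⟩))
            (fun i _ => by unfold BZ; split_ifs <;> norm_num) (Finset.mem_univ i)
        · exact Finset.sum_nonneg fun i _ => by simp only [BZ]; split_ifs <;> norm_num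
      refine h1.trans ?_
      rw [EM_sum]
      have h2 : ∀ i ∈ (Finset.univ : Finset (Fin k)),
          EM p (fun c : (Σ i, ι i) → ZMod p => (fun x => BZ (P i) p x) (fun j => c ⟨i, j⟩)) ≤
          ((P i).totalDegree + |(MvPolynomial.eval (c0 i) (P i) : ℝ)|) / p := by
        intro i _
        rw [EM_one p i (fun x => BZ (P i) p x)]
        exact EM_BZ (P i) (c0 i) (hP i) p
      refine (Finset.sum_le_sum h2).trans ?_
      rw [← Finset.sum_div]
      gcongr
      linarith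

/-- **Products of curves, in mean square.** -/
theorem products (hd : ∀ i, 1 ≤ d i) (hf : ∀ i j, (f i j).IsHomogeneous (d i))
    (c0 : ∀ i, ι i → ℤ) (hsm : ∀ i, IsSmooth (lform (n := 2) (f i) (fun j => (c0 i j : ℂ))))
    (p0 : ℕ) (hs : ∀ i, ∀ p : ℕ, p.Prime → p0 ≤ p → Separates4 (n := 2) (f i) p)
    (hZ : ∀ i, ∀ p : ℕ, p.Prime → p0 ≤ p → (bcone (n := 2) (f i) p : ℝ) ≤ C0 * p)
    (σ : Fin r → Fin k) (b : ℕ) : ∃ C : ℝ, ∀ H : ℕ, 2 ≤ H → ∀ S ⊆ box (Σ i, ι i) H,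
      ∀ (γ : ((Σ i, ι i) → ℤ) → ℕ → Fin b → ℂ) (ε : ((Σ i, ι i) → ℤ) → ℝ),
      (∀ c ∈ S, IsFrobenius2 f σ b c (γ c)) →
      (∀ c ∈ S, 1 / Real.log H ≤ ε c ∧ ε c ≤ 1) →
      ∑ c ∈ S, (Real.log ‖LP (γ c) (2 + ε c)‖ - (r + eqPairs σ) * Real.log (1 / ε c)) ^ 2 ≤
        C * (box (Σ i, ι i) H).card := by
  classical
  have hex := fun i => exists_disc (n := 2) (f i) (hd i) (hf i) (c0 i) (hsm i)
  choose P hP0 hP using hex
  obtain ⟨Cp, hCp0, hCp⟩ := prime_near
  -- a nonnegative constant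
  have hZ' : ∀ i, ∀ p : ℕ, p.Prime → p0 ≤ p → (bcone (n := 2) (f i) p : ℝ) ≤ |C0| * p := by
    intro i p hp h
    refine (hZ i p hp h).trans ?_
    gcongr
    exact le_abs_self C0
  have hfam := famP (f := f) (abs_nonneg C0) σ p0 P c0 hP0 hf hs hZ'
  set ρ : ℕ → ℝ := fun p => (r + eqPairs σ : ℝ) / p with hρ
  have hmain := assemble (ρ := ρ) (K := (r + eqPairs σ : ℝ)) hfam (by
    intro p hp c
    unfold BP
    split_ifs
    · exact Or.inr rfl
    · exact Or.inl rfl) (by positivity) (by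
    intro p hp
    have hp0 : (0 : ℝ) < p := by exact_mod_cast hp.pos
    exact ⟨by positivity, le_rfl⟩) (r + eqPairs σ) ((r + eqPairs σ) * Cp) (by
    intro ε hε hε1 y hy hyε
    have h1 := hCp ε hε hε1 y hy hyε
    have h2 : ∑ p ∈ PR y, ρ p * (p : ℝ) ^ (-ε) =
        (r + eqPairs σ : ℝ) * ∑ p ∈ PR y, (p : ℝ) ^ (-1 - ε) := by
      rw [Finset.mul_sum]
      refine Finset.sum_congr rfl fun p hp => ?_
      have hp0 : (0 : ℝ) < p := by exact_mod_cast (mem_PR.mp hp).2.pos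
      rw [hρ, show (-1 - ε : ℝ) = -1 + -ε by ring, Real.rpow_add hp0, Real.rpow_neg_one]
      ring
    rw [h2, ← mul_sub, abs_mul, abs_of_nonneg (by positivity)]
    gcongr) 3 b
  obtain ⟨C, hC⟩ := hmain
  refine ⟨C, fun H hH S hS γ ε hγ hε => ?_⟩
  have h1 := hC H hH S hS γ ε (by
    intro c hc
    refine ⟨?_, ?_⟩
    · intro p hp j
      have e : (((3 : ℕ) : ℝ) - 1) / 2 = 1 := by norm_num
      rw [e, Real.rpow_one]
      exact (hγ c hc).bound p hp j
    · intro p hp hB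
      have := Fact.mk hp
      have hp0 : (0 : ℝ) < p := by exact_mod_cast hp.pos
      have hgood : ¬ (p < p0 ∨ ∃ i, MvPolynomial.eval₂ (Int.castRingHom (ZMod p))
          (fun j => red p c ⟨i, j⟩) (P i) = 0) := by
        intro h
        unfold BP at hB
        rw [if_pos h] at hB
        exact one_ne_zero hB
      push Not at hgood
      obtain ⟨hg1, hg2⟩ := hgood
      have hcount := (hγ c hc).count p (by
        intro i
        rw [map_lform]
        apply hP i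
        have h2 : MvPolynomial.eval₂ (Int.castRingHom (AlgebraicClosure (ZMod p)))
            (fun j => algebraMap (ZMod p) (AlgebraicClosure (ZMod p))
              (red p (fun j => c ⟨i, j⟩) j)) (P i) =
            algebraMap (ZMod p) (AlgebraicClosure (ZMod p))
              (MvPolynomial.eval₂ (Int.castRingHom (ZMod p)) (red p (fun j => c ⟨i, j⟩)) (P i)) := by
          rw [MvPolynomial.eval₂_comp_left, RingHom.ext_int
            ((algebraMap (ZMod p) (AlgebraicClosure (ZMod p))).comp (Int.castRingHom (ZMod p)))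
            (Int.castRingHom (AlgebraicClosure (ZMod p)))]
          rfl
        rw [h2]
        intro h3
        exact hg2 i ((map_eq_zero _).mp h3))
      rw [hcount]
      congr 1
      have e2 : (((3 : ℕ) : ℝ) + 1) / 2 = ((2 : ℕ) : ℝ) := by norm_num
      rw [e2, Real.rpow_natCast, NP, if_neg (by omega), hρ]
      have h3 : ∑ q ∈ prs r, nq f σ p q (red p c) =
          ∑ q ∈ prs r, tr (f (σ q.1)) p (red p (fun j => c ⟨σ q.1, j⟩)) *
            tr (f (σ q.2)) p (red p (fun j => c ⟨σ q.2, j⟩)) - eqPairs σ * p := by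
        unfold nq
        rw [Finset.sum_sub_distrib]
        congr 1
        · refine Finset.sum_congr rfl fun q _ => ?_
          rw [tr_eq, tr_eq]
          change tt (f (σ q.1)) p (red p (fun j => c ⟨σ q.1, j⟩)) *
            tt (f (σ q.2)) p (red p (fun j => c ⟨σ q.2, j⟩)) = _
          ring
        · rw [← Finset.sum_filter, Finset.sum_const, nsmul_eq_mul]
          rfl
      rw [h3]
      field_simp
      ring) hε
  have h2 : ∀ t : ℝ, ss 3 t = (2 : ℂ) + t := by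
    intro t
    unfold ss
    push_cast
    ring
  simp only [h2] at h1
  exact h1

end

end Pool.Agent.Y722.PC
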