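import Pool.Agent.Y722.LS.Sup
import Pool.Agent.Y722.LS.Zeta
import Pool.Agent.Y722.HS.Main

/-!
# From moments modulo primes to the L-functions near the edge, in mean square
-/

set_option autoImplicit false

namespace Pool.Agent.Y722.PC

open Finset Pool.Agent.Y722.HS Pool.Agent.Y722.LS

variable {ι : Type} [Fintype ι] [DecidableEq ι]

/-- The trace condition: at the primes at which `B` vanishes, the normalised trace is `N + ρ`. -/
structure Traces (n b : ℕ) (N B : ∀ p : ℕ, (ι → ZMod p) → ℝ) (ρ : ℕ → ℝ) (c : ι → ℤ)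
    (γ : ℕ → Fin b → ℂ) : Prop where
  bound : ∀ p : ℕ, p.Prime → ∀ j, ‖γ p j‖ ≤ (p : ℝ) ^ (((n : ℝ) - 1) / 2)
  trace : ∀ p : ℕ, p.Prime → B p (red p c) = 0 →
    ∑ j, γ p j = (((N p (red p c) + ρ p) * (p : ℝ) ^ (((n : ℝ) + 1) / 2) : ℝ) : ℂ)

section
variable {n b : ℕ} {A K : ℝ} {N B : ∀ p : ℕ, (ι → ZMod p) → ℝ} {ρ : ℕ → ℝ}

theorem term_near (hB : ∀ p : ℕ, p.Prime → ∀ c, B p c = 0 ∨ B p c = 1)
    (hK : 0 ≤ K) (hρ : ∀ p : ℕ, p.Prime → 0 ≤ ρ p ∧ ρ p ≤ K / p) {c : ι → ℤ} {γ : ℕ → Fin b → ℂ}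
    (h : Traces n b N B ρ c γ) (p : ℕ) (hp : p.Prime) (ε : ℝ) (hε : 0 ≤ ε) :
    |((∑ j, γ p j) * (p : ℂ) ^ (-ss n ε)).re -
      ((p : ℝ) ^ (-ε) * N p (red p c) + ρ p * (p : ℝ) ^ (-ε))| ≤
      bb N B (b + K) p (red p c) := by
  have hp0 : (0 : ℝ) < p := by exact_mod_cast hp.pos
  have hp1 : (1 : ℝ) ≤ p := by exact_mod_cast hp.one_lt.le
  have hpε : (p : ℝ) ^ (-ε) ≤ 1 := Real.rpow_le_one_of_one_le_of_nonpos hp1 (by linarith)
  have hpε0 : 0 < (p : ℝ) ^ (-ε) := by positivity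
  have hcp : (p : ℂ) ^ (-ss n ε) =
      (((p : ℝ) ^ (-ε) / (p : ℝ) ^ (((n : ℝ) + 1) / 2) : ℝ) : ℂ) := by
    have h1 : (p : ℝ) ^ (-ε) / (p : ℝ) ^ (((n : ℝ) + 1) / 2) =
        (p : ℝ) ^ (-(((n : ℝ) + 1) / 2 + ε)) := by
      rw [neg_add, Real.rpow_add hp0, Real.rpow_neg hp0.le (((n : ℝ) + 1) / 2)]
      ring
    rw [h1, Complex.ofReal_cpow hp0.le]
    congr 1
    unfold ss
    push_cast
    ring
  obtain ⟨hρ0, hρ1⟩ := hρ p hp
  rcases hB p hp (red p c) with hb | hb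
  · have h1 : bb N B (b + K) p (red p c) = 0 := by
      unfold bb; rw [hb, zero_mul]
    rw [h1, h.trace p hp hb, hcp, ← Complex.ofReal_mul, Complex.ofReal_re]
    apply le_of_eq
    rw [abs_eq_zero, sub_eq_zero]
    field_simp
  · have h1 : bb N B (b + K) p (red p c) = |N p (red p c)| + (b + K) / p := by
      unfold bb; rw [hb, one_mul]
    rw [h1]
    have h2 : |((∑ j, γ p j) * (p : ℂ) ^ (-ss n ε)).re| ≤ b / p := by
      refine (Complex.abs_re_le_norm _).trans ?_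
      rw [norm_mul, hcp, Complex.norm_real, Real.norm_of_nonneg (by positivity)]
      have h3 : ‖∑ j, γ p j‖ ≤ b * (p : ℝ) ^ (((n : ℝ) - 1) / 2) := by
        refine (norm_sum_le _ _).trans ?_
        refine (Finset.sum_le_sum fun j _ => h.bound p hp j).trans ?_
        rw [Finset.sum_const, nsmul_eq_mul, Finset.card_univ, Fintype.card_fin]
      have h4 : (p : ℝ) ^ (((n : ℝ) + 1) / 2) = (p : ℝ) ^ (((n : ℝ) - 1) / 2) * p := by
        rw [← Real.rpow_add_one hp0.ne']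
        congr 1
        ring
      calc _ ≤ b * (p : ℝ) ^ (((n : ℝ) - 1) / 2) * (1 / (p : ℝ) ^ (((n : ℝ) + 1) / 2)) := by gcongr
        _ = _ := by rw [h4]; field_simp
    have h3 : |(p : ℝ) ^ (-ε) * N p (red p c)| ≤ |N p (red p c)| := by
      rw [abs_mul, abs_of_pos hpε0]
      calc _ ≤ 1 * |N p (red p c)| := by gcongr
        _ = _ := one_mul _
    have h4 : |ρ p * (p : ℝ) ^ (-ε)| ≤ K / p := by
      rw [abs_of_nonneg (by positivity)]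
      calc _ ≤ ρ p * 1 := by gcongr
        _ ≤ _ := by rw [mul_one]; exact hρ1
    have h5 := abs_sub (((∑ j, γ p j) * (p : ℂ) ^ (-ss n ε)).re)
      ((p : ℝ) ^ (-ε) * N p (red p c) + ρ p * (p : ℝ) ^ (-ε))
    have h6 := abs_add_le ((p : ℝ) ^ (-ε) * N p (red p c)) (ρ p * (p : ℝ) ^ (-ε))
    have h7 : ((b : ℝ) + K) / p = b / p + K / p := by ring
    rw [h7]
    linarith

theorem sum_near (hB : ∀ p : ℕ, p.Prime → ∀ c, B p c = 0 ∨ B p c = 1)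
    (hK : 0 ≤ K) (hρ : ∀ p : ℕ, p.Prime → 0 ≤ ρ p ∧ ρ p ≤ K / p) {c : ι → ℤ} {γ : ℕ → Fin b → ℂ}
    (h : Traces n b N B ρ c γ) (y : ℕ) (ε : ℝ) (hε : 0 ≤ ε) :
    |∑ p ∈ PR y, ((∑ j, γ p j) * (p : ℂ) ^ (-ss n ε)).re -
      (Z1 N y ε c + ∑ p ∈ PR y, ρ p * (p : ℝ) ^ (-ε))| ≤
      ∑ p ∈ PR y, bb N B (b + K) p (red p c) := by
  unfold Z1 WW
  rw [← Finset.sum_add_distrib, ← Finset.sum_sub_distrib]
  refine (Finset.abs_sum_le_sum_abs _ _).trans (Finset.sum_le_sum fun p hp => ?_)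
  exact term_near hB hK hρ h p (mem_PR.mp hp).2 ε hε

/-- **From moments modulo primes to the L-functions near the edge.** -/
theorem assemble (hF : Fam A N B) (hB : ∀ p : ℕ, p.Prime → ∀ c, B p c = 0 ∨ B p c = 1)
    (hK : 0 ≤ K) (hρ : ∀ p : ℕ, p.Prime → 0 ≤ ρ p ∧ ρ p ≤ K / p) (r R : ℝ)
    (href : ∀ ε : ℝ, 0 < ε → ε ≤ 1 → ∀ y : ℕ, 1 ≤ y → 1 ≤ 4 * (ε * Real.log (y + 1)) →
      |∑ p ∈ PR y, ρ p * (p : ℝ) ^ (-ε) - r * Real.log (1 / ε)| ≤ R) (n b : ℕ) :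
    ∃ C : ℝ, ∀ H : ℕ, 2 ≤ H → ∀ S ⊆ box ι H, ∀ (γ : (ι → ℤ) → ℕ → Fin b → ℂ)
      (ε : (ι → ℤ) → ℝ), (∀ c ∈ S, Traces n b N B ρ c (γ c)) →
      (∀ c ∈ S, 1 / Real.log H ≤ ε c ∧ ε c ≤ 1) →
      ∑ c ∈ S, (Real.log ‖LP (γ c) (ss n (ε c))‖ - r * Real.log (1 / ε c)) ^ 2 ≤
        C * (box ι H).card := by
  set β : ℝ := b + K with hβ
  have hβ0 : 0 ≤ β := by positivity
  set K' : ℝ := b * SS + 128 * b + R with hK'
  refine ⟨3 * (3 * K1 ι A) + 3 * K4 ι A β + 3 * K' ^ 2, ?_⟩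
  intro H hH S hS γ ε hγ hε
  obtain ⟨y, hy1, hy4, hyl⟩ := exists_y H hH
  have hlogH : 0 < Real.log H := Real.log_pos (by exact_mod_cast (by omega : 1 < H))
  set M : (ι → ℤ) → ℝ := fun c => 3 * G1 N y c +
    3 * (∑ p ∈ PR y, bb N B β p (red p c)) ^ 2 + 3 * K' ^ 2 with hM
  have hM0 : ∀ c, 0 ≤ M c := by
    intro c
    have h1 : 0 ≤ G1 N y c :=
      le_trans (sq_nonneg _) (Z1_sq_le (N := N) y c 0 le_rfl zero_le_one)
    simp only [hM]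
    positivity
  have hone : ∀ c ∈ S, (Real.log ‖LP (γ c) (ss n (ε c))‖ - r * Real.log (1 / ε c)) ^ 2 ≤ M c := by
    intro c hc
    obtain ⟨hε0, hε1⟩ := hε c hc
    have hεp : 0 < ε c := lt_of_lt_of_le (by positivity) hε0
    have hyε : 1 ≤ 4 * (ε c * Real.log (y + 1)) := by
      have h4 : 1 ≤ ε c * Real.log H := by
        rw [div_le_iff₀ hlogH] at hε0
        exact hε0
      calc (1 : ℝ) ≤ ε c * Real.log H := h4
        _ ≤ ε c * (4 * Real.log (y + 1)) := by gcongr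
        _ = _ := by ring
    have h1 := log_LP (n := n) hεp hε1 (hγ c hc).bound y hy1
    have h2 := sum_near hB hK hρ (hγ c hc) y (ε c) hεp.le
    rw [← hβ] at h2
    have h16 : 16 / (ε c * Real.log (y + 1)) ≤ 64 := by
      rw [div_le_iff₀ (by linarith)]
      linarith
    have h3 : 2 * (b : ℝ) * (16 / (ε c * Real.log (y + 1))) ≤ 128 * b := by
      calc _ ≤ 2 * (b : ℝ) * 64 := by gcongr
        _ = _ := by ring
    have h4 := href (ε c) hεp hε1 y hy1 hyε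
    have h5 : Z1 N y (ε c) c ^ 2 ≤ G1 N y c := Z1_sq_le (N := N) y c (ε c) hεp.le hε1
    set L := Real.log ‖LP (γ c) (ss n (ε c))‖
    set S1 := ∑ p ∈ PR y, ((∑ j, γ c p j) * (p : ℂ) ^ (-ss n (ε c))).re
    set z := Z1 N y (ε c) c
    set w := ∑ p ∈ PR y, bb N B β p (red p c)
    set S2 := ∑ p ∈ PR y, ρ p * (p : ℝ) ^ (-(ε c))
    set l := Real.log (1 / ε c)
    have e0 : L - r * l = (L - S1) + (S1 - (z + S2)) + z + (S2 - r * l) := by ring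
    have i1 := abs_add_le ((L - S1) + (S1 - (z + S2)) + z) (S2 - r * l)
    have i2 := abs_add_le ((L - S1) + (S1 - (z + S2))) z
    have i3 := abs_add_le (L - S1) (S1 - (z + S2))
    have h6 : |L - r * l| ≤ |z| + w + K' := by
      rw [e0, hK']
      linarith
    have h7 : (L - r * l) ^ 2 ≤ (|z| + w + K') ^ 2 := by
      rw [← sq_abs (L - r * l)]
      gcongr
    have h8 : (|z| + w + K') ^ 2 ≤ 3 * |z| ^ 2 + 3 * w ^ 2 + 3 * K' ^ 2 := by
      nlinarith [sq_nonneg (|z| - w), sq_nonneg (|z| - K'), sq_nonneg (w - K')]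
    rw [sq_abs] at h8
    simp only [hM]
    linarith
  have h1 : EB H M ≤ 3 * (3 * K1 ι A) + 3 * K4 ι A β + 3 * K' ^ 2 := by
    rw [hM, EB_add, EB_add, EB_const, HS.EB_mul, HS.EB_mul]
    have e1 := hF.EB_G1 H y hy4
    have e2 := hF.EB_bb_sq hβ0 H y hy4
    linarith
  have hB : (0 : ℝ) < (2 * H + 1 : ℝ) ^ Fintype.card ι := by positivity
  calc _ ≤ ∑ c ∈ S, M c := Finset.sum_le_sum hone
    _ ≤ ∑ c ∈ box ι H, M c := Finset.sum_le_sum_of_subset_of_nonneg hS fun c _ _ => hM0 c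
    _ = EB H M * (box ι H).card := by
        rw [EB, card_box]
        field_simp
    _ ≤ _ := by gcongr

end

end Pool.Agent.Y722.PC
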