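import Pool.Agent.Y722.PC.Four
import Pool.Agent.Y722.PC.Assemble

/-!
# Moments of the traces of Frobenius of plane curves, and products of curves
-/

set_option autoImplicit false

namespace Pool.Agent.Y722.PC

open Finset Pool.Agent.Y722.HS Pool.Agent.Y722.LS

section one
variable {ι : Type} [Fintype ι] [DecidableEq ι]

/-- `#C(𝔽_p) - (p + 1)` for the plane curve `C : ∑ c i f i = 0`. -/
noncomputable def tt (f : ι → MvPolynomial (Fin 3) ℤ) (p : ℕ) (c : ι → ZMod p) : ℝ :=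
  ((lcone (n := 2) f c : ℝ) - ((p : ℝ) ^ 2 - 1)) / ((p : ℝ) - 1)

variable {p : ℕ} [Fact p.Prime] {f : ι → MvPolynomial (Fin 3) ℤ} {d : ℕ} {C0 : ℝ}

/-- The mean of `tt`. -/
noncomputable def mu (f : ι → MvPolynomial (Fin 3) ℤ) (p : ℕ) : ℝ :=
  (1 + (bcone (n := 2) f p : ℝ)) / p

theorem tt_eq (c : ι → ZMod p) : tt f p c = DD4 (n := 2) f p c / ((p : ℝ) - 1) + mu f p := by
  have hp0 : (0 : ℝ) < p := by exact_mod_cast (Fact.out : p.Prime).pos
  have hp1 : (0 : ℝ) < (p : ℝ) - 1 := by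
    have : (1 : ℝ) < p := by exact_mod_cast (Fact.out : p.Prime).one_lt
    linarith
  unfold tt mu
  rw [lcone_DD]
  field_simp
  ring

theorem mu_bd (hC0 : 0 ≤ C0) (hZ : (bcone (n := 2) f p : ℝ) ≤ C0 * p) :
    0 ≤ mu f p ∧ mu f p ≤ 1 + C0 := by
  have hp0 : (0 : ℝ) < p := by exact_mod_cast (Fact.out : p.Prime).pos
  have hp1 : (1 : ℝ) ≤ p := by exact_mod_cast (Fact.out : p.Prime).one_lt.le
  unfold mu
  constructor
  · positivity
  · rw [div_le_iff₀ hp0]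
    nlinarith

theorem EM_tt : EM p (fun c : ι → ZMod p => tt f p c) = mu f p := by
  have h1 : (fun c : ι → ZMod p => tt f p c) =
      fun c => (1 / ((p : ℝ) - 1)) * DD4 (n := 2) f p c + mu f p := by
    funext c; rw [tt_eq]; ring
  rw [h1, EM_add, EM_mul, EM_const, EM, sum_DD, zero_div, mul_zero, zero_add]

theorem EM_tt_sq (hf : ∀ i, (f i).IsHomogeneous d) (hs : Separates4 (n := 2) f p) :
    EM p (fun c : ι → ZMod p => tt f p c ^ 2) =
      ((p : ℝ) ^ 3 - 1 - bcone (n := 2) f p) / (p : ℝ) ^ 2 + mu f p ^ 2 := by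
  have hp0 : (0 : ℝ) < p := by exact_mod_cast (Fact.out : p.Prime).pos
  have hp1 : (0 : ℝ) < (p : ℝ) - 1 := by
    have : (1 : ℝ) < p := by exact_mod_cast (Fact.out : p.Prime).one_lt
    linarith
  have h1 : (fun c : ι → ZMod p => tt f p c ^ 2) =
      fun c => ((1 / ((p : ℝ) - 1) ^ 2) * DD4 (n := 2) f p c ^ 2 +
        (2 * mu f p / ((p : ℝ) - 1)) * DD4 (n := 2) f p c) + mu f p ^ 2 := by
    funext c; rw [tt_eq]; field_simp; ring
  have hM : (0 : ℝ) < (p : ℝ) ^ Fintype.card ι := by positivity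
  rw [h1, EM_add, EM_add, EM_mul, EM_mul, EM_const, EM, EM, sum_DD, sum_DD_sq hf hs, zero_div,
    mul_zero, add_zero, vr]
  field_simp

theorem EM_tt_four (hf : ∀ i, (f i).IsHomogeneous d) (hs : Separates4 (n := 2) f p)
    (hC0 : 0 ≤ C0) (hZ : (bcone (n := 2) f p : ℝ) ≤ C0 * p) :
    EM p (fun c : ι → ZMod p => tt f p c ^ 4) ≤ (48 + 8 * (1 + C0) ^ 4) * (p : ℝ) ^ 2 := by
  have hp0 : (0 : ℝ) < p := by exact_mod_cast (Fact.out : p.Prime).pos
  have hp1' : (1 : ℝ) ≤ p := by exact_mod_cast (Fact.out : p.Prime).one_lt.le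
  have hp1 : (0 : ℝ) < (p : ℝ) - 1 := by
    have : (1 : ℝ) < p := by exact_mod_cast (Fact.out : p.Prime).one_lt
    linarith
  obtain ⟨hm0, hm1⟩ := mu_bd (f := f) (p := p) hC0 hZ
  have h1 : EM p (fun c : ι → ZMod p => tt f p c ^ 4) ≤
      EM p (fun c => (8 / ((p : ℝ) - 1) ^ 4) * DD4 (n := 2) f p c ^ 4 + 8 * mu f p ^ 4) := by
    apply EM_mono
    intro c
    rw [tt_eq]
    set a := DD4 (n := 2) f p c / ((p : ℝ) - 1) with ha
    set b := mu f p
    have e : (8 / ((p : ℝ) - 1) ^ 4) * DD4 (n := 2) f p c ^ 4 = 8 * a ^ 4 := by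
      rw [ha, div_pow]; ring
    rw [e]
    nlinarith [sq_nonneg (a - b), sq_nonneg (a + b), sq_nonneg (a ^ 2 - b ^ 2),
      sq_nonneg (a ^ 2 + b ^ 2), sq_nonneg (a * b), mul_nonneg (sq_nonneg (a - b)) (sq_nonneg (a + b)),
      mul_nonneg (sq_nonneg (a - b)) (sq_nonneg a), mul_nonneg (sq_nonneg (a - b)) (sq_nonneg b)]
  refine h1.trans ?_
  rw [EM_add, EM_mul, EM_const, EM]
  have hM : (0 : ℝ) < (p : ℝ) ^ Fintype.card ι := by positivity
  have h2 := sum_DD_four hf hs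
  set X : ℝ := (p : ℝ) ^ (2 + 1) - 1 - bcone (n := 2) f p with hX
  have hX0 : 0 ≤ X := by
    rw [hX, ← card_YY]; positivity
  have hX1 : X ≤ (p : ℝ) ^ 3 := by
    have e3 : (p : ℝ) ^ (2 + 1) = (p : ℝ) ^ 3 := by norm_num
    rw [hX, e3]
    have : (0 : ℝ) ≤ bcone (n := 2) f p := by positivity
    linarith
  have h3 : (∑ c : ι → ZMod p, DD4 (n := 2) f p c ^ 4) / (p : ℝ) ^ Fintype.card ι ≤
      3 * (((p : ℝ) - 1) ^ 2 * (X ^ 2 * vr p ^ 2 + X * ((p : ℝ) - 1) * vr p)) := by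
    rw [div_le_iff₀ hM]
    exact h2
  have h4 : 8 / ((p : ℝ) - 1) ^ 4 *
      (3 * (((p : ℝ) - 1) ^ 2 * (X ^ 2 * vr p ^ 2 + X * ((p : ℝ) - 1) * vr p))) =
      24 * (X ^ 2 / (p : ℝ) ^ 4 + X / (p : ℝ) ^ 2) := by
    unfold vr
    field_simp
    ring
  have h5 : X ^ 2 / (p : ℝ) ^ 4 ≤ (p : ℝ) ^ 2 := by
    rw [div_le_iff₀ (by positivity)]
    calc X ^ 2 ≤ ((p : ℝ) ^ 3) ^ 2 := by gcongr
      _ = _ := by ring
  have h6 : X / (p : ℝ) ^ 2 ≤ (p : ℝ) ^ 2 := by
    rw [div_le_iff₀ (by positivity)]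
    calc X ≤ (p : ℝ) ^ 3 := hX1
      _ ≤ (p : ℝ) ^ 4 := pow_le_pow_right₀ hp1' (by norm_num)
      _ = _ := by ring
  have h7 : mu f p ^ 4 ≤ (1 + C0) ^ 4 := by gcongr
  have h8 : (1 : ℝ) ≤ (p : ℝ) ^ 2 := one_le_pow₀ hp1'
  calc _ ≤ 8 / ((p : ℝ) - 1) ^ 4 *
        (3 * (((p : ℝ) - 1) ^ 2 * (X ^ 2 * vr p ^ 2 + X * ((p : ℝ) - 1) * vr p))) +
        8 * (1 + C0) ^ 4 := by gcongr
    _ ≤ 48 * (p : ℝ) ^ 2 + 8 * (1 + C0) ^ 4 * 1 := by rw [h4]; linarith
    _ ≤ 48 * (p : ℝ) ^ 2 + 8 * (1 + C0) ^ 4 * (p : ℝ) ^ 2 := by gcongr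
    _ = _ := by ring

end one

section many
variable {k : ℕ} {ι : Fin k → Type} [∀ i, Fintype (ι i)] [∀ i, DecidableEq (ι i)]

/-- The average of a product of functions of the components. -/
theorem EM_prod (p : ℕ) [NeZero p] (g : ∀ i, (ι i → ZMod p) → ℝ) :
    EM p (fun c : (Σ i, ι i) → ZMod p => ∏ i, g i (fun j => c ⟨i, j⟩)) = ∏ i, EM p (g i) := by
  unfold EM
  rw [Finset.prod_div_distrib, Fintype.card_sigma, Finset.prod_pow_eq_pow_sum]
  congr 1
  rw [← (Equiv.piCurry (fun (i : Fin k) (_ : ι i) => ZMod p)).symm.sum_comp, Finset.prod_univ_sum,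
    Fintype.piFinset_univ]
  rfl

/-- The average of a function of one component. -/
theorem EM_one (p : ℕ) [NeZero p] (a : Fin k) (g : (ι a → ZMod p) → ℝ) :
    EM p (fun c : (Σ i, ι i) → ZMod p => g (fun j => c ⟨a, j⟩)) = EM p g := by
  classical
  have h := EM_prod (ι := ι) p (fun i x => if h : i = a then g (fun j => x (h.symm ▸ j)) else 1)
  have h1 : ∀ c : (Σ i, ι i) → ZMod p,
      ∏ i, (if h : i = a then g (fun j => c ⟨i, h.symm ▸ j⟩) else (1 : ℝ)) =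
        g (fun j => c ⟨a, j⟩) := by
    intro c
    rw [Finset.prod_eq_single a]
    · rw [dif_pos rfl]
    · intro b _ hb
      rw [dif_neg hb]
    · intro h; exact absurd (Finset.mem_univ _) h
  simp only [h1] at h
  rw [h, Finset.prod_eq_single a]
  · congr 1
    funext x
    rw [dif_pos rfl]
  · intro b _ hb
    simp only [dif_neg hb]
    exact EM_const p 1
  · intro h; exact absurd (Finset.mem_univ _) h

/-- The average of a product of functions of two components. -/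
theorem EM_pair (p : ℕ) [NeZero p] (a b : Fin k) (hab : a ≠ b) (g : ∀ i, (ι i → ZMod p) → ℝ) :
    EM p (fun c : (Σ i, ι i) → ZMod p => g a (fun j => c ⟨a, j⟩) * g b (fun j => c ⟨b, j⟩)) =
      EM p (g a) * EM p (g b) := by
  classical
  have h := EM_prod (ι := ι) p (fun i x => if i = a ∨ i = b then g i x else 1)
  have h1 : ∀ c : (Σ i, ι i) → ZMod p,
      ∏ i, (if i = a ∨ i = b then g i (fun j => c ⟨i, j⟩) else (1 : ℝ)) =
        g a (fun j => c ⟨a, j⟩) * g b (fun j => c ⟨b, j⟩) := by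
    intro c
    rw [Finset.prod_ite, Finset.prod_const_one, mul_one]
    have h2 : (Finset.univ.filter (fun i => i = a ∨ i = b)) = {a, b} := by
      ext i; simp
    rw [h2, Finset.prod_pair hab]
  simp only [h1] at h
  rw [h]
  have h3 : ∀ i, EM p (fun x : ι i → ZMod p => if i = a ∨ i = b then g i x else 1) =
      if i = a ∨ i = b then EM p (g i) else 1 := by
    intro i
    split_ifs with h4
    · rfl
    · exact EM_const p 1
  rw [Finset.prod_congr rfl fun i _ => h3 i, Finset.prod_ite, Finset.prod_const_one, mul_one]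
  have h2 : (Finset.univ.filter (fun i => i = a ∨ i = b)) = {a, b} := by
    ext i; simp
  rw [h2, Finset.prod_pair hab]

end many

end Pool.Agent.Y722.PC
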