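import Pool.Agent.Y722.LS.Bad

/-!
# Second and fourth moment of the number of points of the members of a linear system
-/

set_option autoImplicit false

namespace Pool.Agent.Y722.PC

open Finset Pool.Agent.Y722.HS Pool.Agent.Y722.LS

variable {n : ℕ} {ι : Type} [Fintype ι] [DecidableEq ι]

/-- For every point over `𝔽_p` off the base locus and three further points different from it there is
a member through the three points but not through the first. -/
def Separates4 (f : ι → MvPolynomial (Fin (n + 1)) ℤ) (p : ℕ) : Prop :=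
  ∀ (x : Fin (n + 1) → ZMod p) (y : Fin 3 → Fin (n + 1) → ZMod p),
    (∃ i, MvPolynomial.aeval x (f i) ≠ 0) → (∀ s, ∃ i j, x i * y s j ≠ x j * y s i) →
    ∃ c : ι → ZMod p, MvPolynomial.eval x (lform f c) ≠ 0 ∧
      ∀ s, MvPolynomial.eval (y s) (lform f c) = 0

/-- Proportional vectors. -/
def Rel {p : ℕ} (x y : Fin (n + 1) → ZMod p) : Prop := ∀ i j, x i * y j = x j * y i

section
variable {p : ℕ} [Fact p.Prime]

theorem Rel.symm {x y : Fin (n + 1) → ZMod p} (h : Rel x y) : Rel y x := by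
  intro i j
  have := h j i
  rw [mul_comm (y i), mul_comm (y j)]
  exact this

theorem Rel.refl (x : Fin (n + 1) → ZMod p) : Rel x x := fun _ _ => mul_comm _ _

theorem Rel.trans {x y z : Fin (n + 1) → ZMod p} (h1 : Rel x y) (h2 : Rel y z) (hy : y ≠ 0) :
    Rel x z := by
  obtain ⟨k, hk⟩ : ∃ i, y i ≠ 0 := Function.ne_iff.mp hy
  intro i j
  have e1 := h1 i k
  have e2 := h2 k j
  have e3 := h1 j k
  have e4 := h2 k i
  have h3 : (x i * z j) * (y k * y k) = (x j * z i) * (y k * y k) := by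
    calc (x i * z j) * (y k * y k) = (x i * y k) * (y k * z j) := by ring
      _ = (x k * y i) * (y j * z k) := by rw [e1, e2]
      _ = (x k * y j) * (y i * z k) := by ring
      _ = (x j * y k) * (y k * z i) := by rw [e3, e4]
      _ = _ := by ring
  exact mul_right_cancel₀ (mul_ne_zero hk hk) h3

theorem Rel.exists_smul {x y : Fin (n + 1) → ZMod p} (h : Rel x y) (hx : x ≠ 0) (hy : y ≠ 0) :
    ∃ t : ZMod p, t ≠ 0 ∧ y = t • x := by
  obtain ⟨k, hk⟩ : ∃ i, x i ≠ 0 := Function.ne_iff.mp hx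
  refine ⟨y k / x k, ?_, ?_⟩
  · intro h0
    apply hy
    have hyk : y k = 0 := by
      rcases div_eq_zero_iff.mp h0 with h | h
      · exact h
      · exact absurd h hk
    funext j
    have := h k j
    rw [hyk, mul_zero] at this
    exact (mul_eq_zero.mp this).resolve_left hk
  · funext j
    have := h k j
    rw [Pi.smul_apply, smul_eq_mul]
    field_simp
    rw [mul_comm, this]
    ring

theorem aeval_smul {d : ℕ} (P : MvPolynomial (Fin (n + 1)) ℤ) (hP : P.IsHomogeneous d)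
    (t : ZMod p) (x : Fin (n + 1) → ZMod p) :
    MvPolynomial.aeval (t • x) P = t ^ d * MvPolynomial.aeval x P := by
  rw [eval_hom P hP, eval_hom P hP, Finset.mul_sum]
  refine Finset.sum_congr rfl fun ν _ => ?_
  have h1 : mev (t • x) ν = t ^ d * mev x ν := by
    unfold mev
    simp only [Pi.smul_apply, smul_eq_mul, mul_pow, Finset.prod_mul_distrib]
    rw [Finset.prod_pow_eq_pow_sum, ν.2]
  rw [h1]
  ring

variable {f : ι → MvPolynomial (Fin (n + 1)) ℤ} {d : ℕ}

theorem lval_smul_vec (hf : ∀ i, (f i).IsHomogeneous d) (c : ι → ZMod p) (t : ZMod p)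
    (x : Fin (n + 1) → ZMod p) : lval f c (t • x) = t ^ d * lval f c x := by
  unfold lval
  rw [Finset.mul_sum]
  refine Finset.sum_congr rfl fun i _ => ?_
  rw [aeval_smul _ (hf i)]
  ring

/-- The centred indicator. -/
noncomputable def ph (p : ℕ) (w : ZMod p) : ℝ := (if w = 0 then 1 else 0) - 1 / p

theorem abs_ph (w : ZMod p) : |ph p w| ≤ 1 := by
  have hp1 : (1 : ℝ) ≤ p := by exact_mod_cast (Fact.out : p.Prime).one_lt.le
  have h1 : 1 / (p : ℝ) ≤ 1 := by rw [div_le_one (by linarith)]; exact hp1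
  have h2 : 0 ≤ 1 / (p : ℝ) := by positivity
  unfold ph
  split_ifs <;> rw [abs_le] <;> constructor <;> linarith

theorem sum_ph : ∑ w : ZMod p, ph p w = 0 := by
  have hp0 : (p : ℝ) ≠ 0 := by exact_mod_cast (Fact.out : p.Prime).ne_zero
  unfold ph
  rw [Finset.sum_sub_distrib, Finset.sum_ite_eq' Finset.univ 0 (fun _ => (1 : ℝ)),
    Finset.sum_const, Finset.card_univ, ZMod.card]
  simp only [Finset.mem_univ, if_true, nsmul_eq_mul]
  field_simp
  ring

/-- The variance. -/
noncomputable def vr (p : ℕ) : ℝ := ((p : ℝ) - 1) / (p : ℝ) ^ 2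

theorem vr_nonneg : 0 ≤ vr p := by
  have hp1 : (1 : ℝ) ≤ p := by exact_mod_cast (Fact.out : p.Prime).one_lt.le
  unfold vr
  have : 0 ≤ (p : ℝ) - 1 := by linarith
  positivity

theorem sum_ph_sq : ∑ w : ZMod p, ph p w ^ 2 = p * vr p := by
  have hp0 : (p : ℝ) ≠ 0 := by exact_mod_cast (Fact.out : p.Prime).ne_zero
  have h1 : ∀ w : ZMod p, ph p w ^ 2 = (if w = 0 then (1 - 2 / (p : ℝ)) else 0) + 1 / (p : ℝ) ^ 2 := by
    intro w
    unfold ph
    split_ifs
    · field_simp; ring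
    · field_simp; ring
  rw [Finset.sum_congr rfl fun w _ => h1 w, Finset.sum_add_distrib,
    Finset.sum_ite_eq' Finset.univ 0 (fun _ => (1 - 2 / (p : ℝ))), Finset.sum_const,
    Finset.card_univ, ZMod.card, vr]
  simp only [Finset.mem_univ, if_true, nsmul_eq_mul]
  field_simp
  ring

/-- Independence of the value at `x`. -/
theorem indep (x : Fin (n + 1) → ZMod p) (c' : ι → ZMod p) (hc' : lval f c' x ≠ 0)
    (φ : ZMod p → ℝ) (G : (ι → ZMod p) → ℝ) (hG : ∀ (c : ι → ZMod p) (t : ZMod p),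
      G (c + t • c') = G c) :
    ∑ c, φ (lval f c x) * G c = (∑ w, φ w) / p * ∑ c, G c := by
  have hp0 : (p : ℝ) ≠ 0 := by exact_mod_cast (Fact.out : p.Prime).ne_zero
  have h1 : ∀ t : ZMod p, ∑ c, φ (lval f c x) * G c =
      ∑ c, φ (lval f c x + t * lval f c' x) * G c := by
    intro t
    rw [← Equiv.sum_comp (Equiv.addRight (t • c')) (fun c => φ (lval f c x) * G c)]
    refine Finset.sum_congr rfl fun c _ => ?_
    simp only [Equiv.coe_addRight]
    rw [hG, lval_add, lval_smul]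
  have h2 : (p : ℝ) * ∑ c, φ (lval f c x) * G c =
      ∑ t : ZMod p, ∑ c, φ (lval f c x + t * lval f c' x) * G c := by
    rw [← Finset.sum_congr rfl fun t _ => h1 t, Finset.sum_const, Finset.card_univ, ZMod.card,
      nsmul_eq_mul]
  have h3 : ∀ c : ι → ZMod p, ∑ t : ZMod p, φ (lval f c x + t * lval f c' x) = ∑ w, φ w := by
    intro c
    have e : Function.Bijective (fun t : ZMod p => lval f c x + t * lval f c' x) := by
      constructor
      · intro s t hst
        simp only at hst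
        exact mul_right_cancel₀ hc' (add_left_cancel hst)
      · intro w
        refine ⟨(w - lval f c x) / lval f c' x, ?_⟩
        simp only
        rw [div_mul_cancel₀ _ hc']
        ring
    exact e.sum_comp φ
  rw [Finset.sum_comm] at h2
  simp only [← Finset.sum_mul, h3] at h2
  rw [← Finset.mul_sum] at h2
  field_simp
  linarith

/-- Twice. -/
theorem two_pts (hs : Separates4 f p) (x y : Fin (n + 1) → ZMod p) (hx : x ∈ YY f p)
    (h : ¬ Rel x y) : ∃ c' : ι → ZMod p, lval f c' x ≠ 0 ∧ lval f c' y = 0 := by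
  unfold Rel at h
  push Not at h
  obtain ⟨i, j, hij⟩ := h
  obtain ⟨c', h1, h2⟩ := hs x (fun _ => y) (mem_YY.mp hx).2 (fun _ => ⟨i, j, hij⟩)
  rw [eval_lform] at h1
  refine ⟨c', h1, ?_⟩
  have := h2 0
  rwa [eval_lform] at this

theorem four_pts (hs : Separates4 f p) (x y z w : Fin (n + 1) → ZMod p) (hx : x ∈ YY f p)
    (h1 : ¬ Rel x y) (h2 : ¬ Rel x z) (h3 : ¬ Rel x w) :
    ∃ c' : ι → ZMod p, lval f c' x ≠ 0 ∧ lval f c' y = 0 ∧ lval f c' z = 0 ∧ lval f c' w = 0 := by
  unfold Rel at h1 h2 h3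
  push Not at h1 h2 h3
  obtain ⟨c', e1, e2⟩ := hs x ![y, z, w] (mem_YY.mp hx).2 (by
    intro s
    fin_cases s
    · exact h1
    · exact h2
    · exact h3)
  rw [eval_lform] at e1
  refine ⟨c', e1, ?_, ?_, ?_⟩
  · have := e2 0
    rwa [eval_lform] at this
  · have := e2 1
    rwa [eval_lform] at this
  · have := e2 2
    rwa [eval_lform] at this

theorem ph_rel (hf : ∀ i, (f i).IsHomogeneous d) {x y : Fin (n + 1) → ZMod p} (h : Rel x y)
    (hx : x ≠ 0) (hy : y ≠ 0) (c : ι → ZMod p) : ph p (lval f c y) = ph p (lval f c x) := by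
  obtain ⟨t, ht, rfl⟩ := h.exists_smul hx hy
  rw [lval_smul_vec hf]
  unfold ph
  congr 1
  have : t ^ d * lval f c x = 0 ↔ lval f c x = 0 := by
    constructor
    · intro h
      exact (mul_eq_zero.mp h).resolve_left (pow_ne_zero _ ht)
    · intro h
      rw [h, mul_zero]
  simp only [this]

theorem inv_of_zero {c' : ι → ZMod p} {y : Fin (n + 1) → ZMod p} (h : lval f c' y = 0)
    (c : ι → ZMod p) (t : ZMod p) : ph p (lval f (c + t • c') y) = ph p (lval f c y) := by
  rw [lval_add, lval_smul, h, mul_zero, add_zero]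

theorem sum_one : ∑ _c : ι → ZMod p, (1 : ℝ) = (p : ℝ) ^ Fintype.card ι := by
  rw [Finset.sum_const, Finset.card_univ, Fintype.card_fun, ZMod.card, nsmul_eq_mul, mul_one]
  push_cast
  rfl

/-- The first moment. -/
theorem mom_one (x : Fin (n + 1) → ZMod p) (hx : x ∈ YY f p) :
    ∑ c, ph p (lval f c x) = 0 := by
  obtain ⟨c', hc'⟩ := exists_lval (f := f) x (mem_YY.mp hx).2 1
  have h := indep (f := f) x c' (by rw [hc']; exact one_ne_zero) (ph p) (fun _ => 1)
    (fun _ _ => rfl)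
  simp only [mul_one] at h
  rw [h, sum_ph]
  simp

/-- The second moment at one point. -/
theorem mom_sq (x : Fin (n + 1) → ZMod p) (hx : x ∈ YY f p) :
    ∑ c, ph p (lval f c x) ^ 2 = vr p * (p : ℝ) ^ Fintype.card ι := by
  have hp0 : (p : ℝ) ≠ 0 := by exact_mod_cast (Fact.out : p.Prime).ne_zero
  obtain ⟨c', hc'⟩ := exists_lval (f := f) x (mem_YY.mp hx).2 1
  have h := indep (f := f) x c' (by rw [hc']; exact one_ne_zero) (fun w => ph p w ^ 2)
    (fun _ => 1) (fun _ _ => rfl)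
  simp only [mul_one] at h
  rw [h, sum_ph_sq, sum_one]
  field_simp

open Classical in
/-- The indicator of proportional vectors. -/
noncomputable def rl {p : ℕ} (x y : Fin (n + 1) → ZMod p) : ℝ := if Rel x y then 1 else 0

theorem rl_nonneg (x y : Fin (n + 1) → ZMod p) : 0 ≤ rl x y := by
  unfold rl; split_ifs <;> norm_num

/-- The second moment at two points. -/
theorem mom_two (hf : ∀ i, (f i).IsHomogeneous d) (hs : Separates4 f p)
    (x y : Fin (n + 1) → ZMod p) (hx : x ∈ YY f p) (hy : y ∈ YY f p) :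
    ∑ c, ph p (lval f c x) * ph p (lval f c y) = rl x y * (vr p * (p : ℝ) ^ Fintype.card ι) := by
  unfold rl
  split_ifs with h
  · rw [one_mul, ← mom_sq x hx]
    refine Finset.sum_congr rfl fun c _ => ?_
    rw [ph_rel hf h (mem_YY.mp hx).1 (mem_YY.mp hy).1]
    ring
  · obtain ⟨c', h1, h2⟩ := two_pts hs x y hx h
    rw [indep x c' h1 (ph p) (fun c => ph p (lval f c y)) (fun c t => inv_of_zero h2 c t), sum_ph]
    simp

/-- The moment of order `2, 2`. -/
theorem mom_sq_sq (hf : ∀ i, (f i).IsHomogeneous d) (hs : Separates4 f p)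
    (x y : Fin (n + 1) → ZMod p) (hx : x ∈ YY f p) (hy : y ∈ YY f p) :
    ∑ c, ph p (lval f c x) ^ 2 * ph p (lval f c y) ^ 2 ≤
      (vr p ^ 2 + rl x y * vr p) * (p : ℝ) ^ Fintype.card ι := by
  have hp0 : (p : ℝ) ≠ 0 := by exact_mod_cast (Fact.out : p.Prime).ne_zero
  have hv := vr_nonneg (p := p)
  have hM : (0 : ℝ) ≤ (p : ℝ) ^ Fintype.card ι := by positivity
  unfold rl
  split_ifs with h
  · have h1 : ∀ c : ι → ZMod p, ph p (lval f c x) ^ 2 * ph p (lval f c y) ^ 2 ≤
        ph p (lval f c x) ^ 2 := by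
      intro c
      have h2 : ph p (lval f c y) ^ 2 ≤ 1 := by
        rw [← sq_abs]
        have := abs_ph (lval f c y)
        have h3 := abs_nonneg (ph p (lval f c y))
        nlinarith
      calc _ ≤ ph p (lval f c x) ^ 2 * 1 := by gcongr
        _ = _ := mul_one _
    refine (Finset.sum_le_sum fun c _ => h1 c).trans ?_
    rw [mom_sq x hx, one_mul]
    have : 0 ≤ vr p ^ 2 * (p : ℝ) ^ Fintype.card ι := by positivity
    nlinarith
  · obtain ⟨c', h1, h2⟩ := two_pts hs x y hx h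
    rw [indep x c' h1 (fun w => ph p w ^ 2) (fun c => ph p (lval f c y) ^ 2)
      (fun c t => by rw [inv_of_zero h2 c t]), sum_ph_sq, mom_sq y hy]
    apply le_of_eq
    field_simp
    ring

/-- An isolated point. -/
theorem mom_isolated (hs : Separates4 f p) (x y z w : Fin (n + 1) → ZMod p)
    (hx : x ∈ YY f p) (h1 : ¬ Rel x y) (h2 : ¬ Rel x z) (h3 : ¬ Rel x w) :
    ∑ c, ph p (lval f c x) * (ph p (lval f c y) * (ph p (lval f c z) * ph p (lval f c w))) = 0 := by
  obtain ⟨c', e1, e2, e3, e4⟩ := four_pts hs x y z w hx h1 h2 h3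
  rw [indep x c' e1 (ph p) (fun c => ph p (lval f c y) * (ph p (lval f c z) * ph p (lval f c w)))
    (fun c t => by
      rw [inv_of_zero e2 c t, inv_of_zero e3 c t, inv_of_zero e4 c t]), sum_ph]
  simp

/-- Two pairs. -/
theorem mom_pairs (hf : ∀ i, (f i).IsHomogeneous d) (hs : Separates4 f p)
    (x y z w : Fin (n + 1) → ZMod p) (hx : x ∈ YY f p) (hy : y ∈ YY f p) (hz : z ∈ YY f p)
    (hw : w ∈ YY f p) (h1 : Rel x y) (h2 : Rel z w) :
    ∑ c, ph p (lval f c x) * (ph p (lval f c y) * (ph p (lval f c z) * ph p (lval f c w))) ≤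
      (vr p ^ 2 + rl x z * vr p) * (p : ℝ) ^ Fintype.card ι := by
  refine le_trans (le_of_eq ?_) (mom_sq_sq hf hs x z hx hz)
  refine Finset.sum_congr rfl fun c _ => ?_
  rw [ph_rel hf h1 (mem_YY.mp hx).1 (mem_YY.mp hy).1, ph_rel hf h2 (mem_YY.mp hz).1 (mem_YY.mp hw).1]
  ring

/-- The fourth moment at four points. -/
theorem mom_four (hf : ∀ i, (f i).IsHomogeneous d) (hs : Separates4 f p)
    (x y z w : Fin (n + 1) → ZMod p) (hx : x ∈ YY f p) (hy : y ∈ YY f p) (hz : z ∈ YY f p)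
    (hw : w ∈ YY f p) :
    ∑ c, ph p (lval f c x) * (ph p (lval f c y) * (ph p (lval f c z) * ph p (lval f c w))) ≤
      (rl x y * rl z w * (vr p ^ 2 + rl x z * vr p) + rl x z * rl y w * (vr p ^ 2 + rl x y * vr p) +
        rl x w * rl y z * (vr p ^ 2 + rl x y * vr p)) * (p : ℝ) ^ Fintype.card ι := by
  have hv := vr_nonneg (p := p)
  have hM : (0 : ℝ) ≤ (p : ℝ) ^ Fintype.card ι := by positivity
  have n1 := rl_nonneg x y
  have n2 := rl_nonneg z w
  have n3 := rl_nonneg x z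
  have n4 := rl_nonneg y w
  have n5 := rl_nonneg x w
  have n6 := rl_nonneg y z
  have hA : 0 ≤ rl x y * rl z w * (vr p ^ 2 + rl x z * vr p) := by positivity
  have hB : 0 ≤ rl x z * rl y w * (vr p ^ 2 + rl x y * vr p) := by positivity
  have hC : 0 ≤ rl x w * rl y z * (vr p ^ 2 + rl x y * vr p) := by positivity
  have hx0 := (mem_YY.mp hx).1
  have hy0 := (mem_YY.mp hy).1
  have hz0 := (mem_YY.mp hz).1
  have hw0 := (mem_YY.mp hw).1
  by_cases p1 : Rel x y ∧ Rel z w
  · have h1 := mom_pairs hf hs x y z w hx hy hz hw p1.1 p1.2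
    have e1 : rl x y = 1 := by unfold rl; rw [if_pos p1.1]
    have e2 : rl z w = 1 := by unfold rl; rw [if_pos p1.2]
    rw [e1, e2] at hA ⊢
    refine h1.trans (mul_le_mul_of_nonneg_right ?_ hM)
    rw [e1] at hB hC
    linarith
  by_cases p2 : Rel x z ∧ Rel y w
  · have h1 := mom_pairs hf hs x z y w hx hz hy hw p2.1 p2.2
    have e1 : rl x z = 1 := by unfold rl; rw [if_pos p2.1]
    have e2 : rl y w = 1 := by unfold rl; rw [if_pos p2.2]
    have e3 : ∑ c, ph p (lval f c x) * (ph p (lval f c y) * (ph p (lval f c z) * ph p (lval f c w))) =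
        ∑ c, ph p (lval f c x) * (ph p (lval f c z) * (ph p (lval f c y) * ph p (lval f c w))) :=
      Finset.sum_congr rfl fun c _ => by ring
    rw [e3]
    rw [e1, e2] at hB ⊢
    rw [e1] at hA
    refine h1.trans (mul_le_mul_of_nonneg_right ?_ hM)
    linarith
  by_cases p3 : Rel x w ∧ Rel y z
  · have h1 := mom_pairs hf hs x w y z hx hw hy hz p3.1 p3.2
    have e1 : rl x w = 1 := by unfold rl; rw [if_pos p3.1]
    have e2 : rl y z = 1 := by unfold rl; rw [if_pos p3.2]
    have e3 : ∑ c, ph p (lval f c x) * (ph p (lval f c y) * (ph p (lval f c z) * ph p (lval f c w))) =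
        ∑ c, ph p (lval f c x) * (ph p (lval f c w) * (ph p (lval f c y) * ph p (lval f c z))) :=
      Finset.sum_congr rfl fun c _ => by ring
    rw [e3]
    rw [e1, e2] at hC ⊢
    refine h1.trans (mul_le_mul_of_nonneg_right ?_ hM)
    linarith
  have hR : 0 ≤ (rl x y * rl z w * (vr p ^ 2 + rl x z * vr p) +
      rl x z * rl y w * (vr p ^ 2 + rl x y * vr p) +
      rl x w * rl y z * (vr p ^ 2 + rl x y * vr p)) * (p : ℝ) ^ Fintype.card ι := by positivity
  refine le_trans (le_of_eq ?_) hR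
  by_cases i1 : Rel x y
  · -- `z` and `w` are not proportional
    have hzw : ¬ Rel z w := fun h => p1 ⟨i1, h⟩
    by_cases i2 : Rel z x
    · -- then `w` is isolated
      have hxz := i2.symm
      have hwx : ¬ Rel w x := fun h => hzw (i2.trans h.symm hx0)
      have hwy : ¬ Rel w y := fun h => hwx (h.trans i1.symm hy0)
      have hwz : ¬ Rel w z := fun h => hzw h.symm
      have := mom_isolated hs w x y z hw hwx hwy hwz
      rw [← this]
      exact Finset.sum_congr rfl fun c _ => by ring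
    · have hzy : ¬ Rel z y := fun h => i2 (h.trans i1.symm hy0)
      have := mom_isolated hs z x y w hz i2 hzy hzw
      rw [← this]
      exact Finset.sum_congr rfl fun c _ => by ring
  · by_cases i2 : Rel x z
    · have hyw : ¬ Rel y w := fun h => p2 ⟨i2, h⟩
      have hyx : ¬ Rel y x := fun h => i1 h.symm
      have hyz : ¬ Rel y z := fun h => hyx (h.trans i2.symm hz0)
      have := mom_isolated hs y x z w hy hyx hyz hyw
      rw [← this]
      exact Finset.sum_congr rfl fun c _ => by ring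
    · by_cases i3 : Rel x w
      · have hyz : ¬ Rel y z := fun h => p3 ⟨i3, h⟩
        have hyx : ¬ Rel y x := fun h => i1 h.symm
        have hyw : ¬ Rel y w := fun h => hyx (h.trans i3.symm hw0)
        have := mom_isolated hs y x z w hy hyx hyz hyw
        rw [← this]
        exact Finset.sum_congr rfl fun c _ => by ring
      · exact mom_isolated hs x y z w hx i1 i2 i3

/-- The deviation of the number of the vectors from its mean. -/
noncomputable def DD4 (f : ι → MvPolynomial (Fin (n + 1)) ℤ) (p : ℕ) [Fact p.Prime]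
    (c : ι → ZMod p) : ℝ := ∑ x ∈ YY f p, ph p (lval f c x)

theorem lcone_DD (c : ι → ZMod p) : (lcone f c : ℝ) =
    bcone f p + ((p : ℝ) ^ (n + 1) - 1 - bcone f p) / p + DD4 f p c := by
  rw [lcone_eq, DD4]
  unfold ph
  rw [Finset.sum_sub_distrib, Finset.sum_const, nsmul_eq_mul, card_YY]
  ring

theorem sum_DD : ∑ c : ι → ZMod p, DD4 f p c = 0 := by
  unfold DD4
  rw [Finset.sum_comm]
  exact Finset.sum_eq_zero fun x hx => mom_one x hx

/-- The number of the vectors off the base locus proportional to a given one. -/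
theorem sum_rl (hf : ∀ i, (f i).IsHomogeneous d) (x : Fin (n + 1) → ZMod p) (hx : x ∈ YY f p) :
    ∑ y ∈ YY f p, rl x y = (p : ℝ) - 1 := by
  classical
  unfold rl
  rw [← Finset.sum_filter, Finset.sum_const, nsmul_eq_mul, mul_one]
  obtain ⟨hx0, i, hi⟩ := mem_YY.mp hx
  have h1 : ((YY f p).filter (fun y => Rel x y)) =
      (Finset.univ.erase (0 : ZMod p)).image (fun t => t • x) := by
    ext y
    rw [Finset.mem_filter, Finset.mem_image]
    constructor
    · rintro ⟨hy, h⟩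
      obtain ⟨t, ht, rfl⟩ := h.exists_smul hx0 (mem_YY.mp hy).1
      exact ⟨t, Finset.mem_erase.mpr ⟨ht, Finset.mem_univ _⟩, rfl⟩
    · rintro ⟨t, ht, rfl⟩
      have ht0 : t ≠ 0 := (Finset.mem_erase.mp ht).1
      refine ⟨mem_YY.mpr ⟨smul_ne_zero ht0 hx0, i, ?_⟩, ?_⟩
      · rw [aeval_smul _ (hf i)]
        exact mul_ne_zero (pow_ne_zero _ ht0) hi
      · intro a b
        simp only [Pi.smul_apply, smul_eq_mul]
        ring
  rw [h1, Finset.card_image_of_injective _ (fun s t hst => smul_left_injective _ hx0 hst),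
    Finset.card_erase_of_mem (Finset.mem_univ _), Finset.card_univ, ZMod.card,
    Nat.cast_sub (Fact.out : p.Prime).one_lt.le]
  simp

/-- **The second moment.** -/
theorem sum_DD_sq (hf : ∀ i, (f i).IsHomogeneous d) (hs : Separates4 f p) :
    ∑ c : ι → ZMod p, DD4 f p c ^ 2 = ((p : ℝ) ^ (n + 1) - 1 - bcone f p) * ((p : ℝ) - 1) * vr p *
      (p : ℝ) ^ Fintype.card ι := by
  have h1 : ∀ c : ι → ZMod p, DD4 f p c ^ 2 =
      ∑ x ∈ YY f p, ∑ y ∈ YY f p, ph p (lval f c x) * ph p (lval f c y) := by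
    intro c
    rw [DD4, pow_two, Finset.sum_mul_sum]
  rw [Finset.sum_congr rfl fun c _ => h1 c, Finset.sum_comm]
  have h2 : ∀ x ∈ YY f p, ∑ c : ι → ZMod p, ∑ y ∈ YY f p, ph p (lval f c x) * ph p (lval f c y) =
      ((p : ℝ) - 1) * (vr p * (p : ℝ) ^ Fintype.card ι) := by
    intro x hx
    rw [Finset.sum_comm, Finset.sum_congr rfl fun y hy => mom_two hf hs x y hx hy,
      ← Finset.sum_mul, sum_rl hf x hx]
  rw [Finset.sum_congr rfl h2, Finset.sum_const, nsmul_eq_mul, card_YY]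
  ring

/-- **The fourth moment.** -/
theorem sum_DD_four (hf : ∀ i, (f i).IsHomogeneous d) (hs : Separates4 f p) :
    ∑ c : ι → ZMod p, DD4 f p c ^ 4 ≤
      3 * (((p : ℝ) - 1) ^ 2 * (((p : ℝ) ^ (n + 1) - 1 - bcone f p) ^ 2 * vr p ^ 2 +
        ((p : ℝ) ^ (n + 1) - 1 - bcone f p) * ((p : ℝ) - 1) * vr p)) *
      (p : ℝ) ^ Fintype.card ι := by
  set M := (p : ℝ) ^ Fintype.card ι with hM
  have h1 : ∀ c : ι → ZMod p, DD4 f p c ^ 4 =
      ∑ x ∈ YY f p, ∑ y ∈ YY f p, ∑ z ∈ YY f p, ∑ w ∈ YY f p,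
        ph p (lval f c x) * (ph p (lval f c y) * (ph p (lval f c z) * ph p (lval f c w))) := by
    intro c
    have : DD4 f p c ^ 4 = DD4 f p c * (DD4 f p c * (DD4 f p c * DD4 f p c)) := by ring
    rw [this]
    simp only [DD4]
    simp only [Finset.sum_mul, Finset.mul_sum]
    refine Finset.sum_congr rfl fun x _ => Finset.sum_congr rfl fun y _ =>
      Finset.sum_congr rfl fun z _ => Finset.sum_congr rfl fun w _ => by ring
  rw [Finset.sum_congr rfl fun c _ => h1 c]
  have hswap : ∑ c : ι → ZMod p, ∑ x ∈ YY f p, ∑ y ∈ YY f p, ∑ z ∈ YY f p, ∑ w ∈ YY f p,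
        ph p (lval f c x) * (ph p (lval f c y) * (ph p (lval f c z) * ph p (lval f c w))) =
      ∑ x ∈ YY f p, ∑ y ∈ YY f p, ∑ z ∈ YY f p, ∑ w ∈ YY f p, ∑ c : ι → ZMod p,
        ph p (lval f c x) * (ph p (lval f c y) * (ph p (lval f c z) * ph p (lval f c w))) := by
    rw [Finset.sum_comm]
    refine Finset.sum_congr rfl fun x _ => ?_
    rw [Finset.sum_comm]
    refine Finset.sum_congr rfl fun y _ => ?_
    rw [Finset.sum_comm]
    refine Finset.sum_congr rfl fun z _ => ?_
    rw [Finset.sum_comm]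
  rw [hswap]
  set g : (Fin (n + 1) → ZMod p) → (Fin (n + 1) → ZMod p) → ℝ :=
    fun x y => vr p ^ 2 + rl x y * vr p with hg
  have h2 : ∑ x ∈ YY f p, ∑ y ∈ YY f p, ∑ z ∈ YY f p, ∑ w ∈ YY f p, ∑ c : ι → ZMod p,
        ph p (lval f c x) * (ph p (lval f c y) * (ph p (lval f c z) * ph p (lval f c w))) ≤
      ∑ x ∈ YY f p, ∑ y ∈ YY f p, ∑ z ∈ YY f p, ∑ w ∈ YY f p,
        (rl x y * rl z w * g x z + rl x z * rl y w * g x y + rl x w * rl y z * g x y) * M :=
    Finset.sum_le_sum fun x hx => Finset.sum_le_sum fun y hy => Finset.sum_le_sum fun z hz =>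
      Finset.sum_le_sum fun w hw => mom_four hf hs x y z w hx hy hz hw
  refine h2.trans (le_of_eq ?_)
  -- the three sums are equal
  have key : ∑ x ∈ YY f p, ∑ z ∈ YY f p, g x z =
      ((p : ℝ) ^ (n + 1) - 1 - bcone f p) ^ 2 * vr p ^ 2 +
        ((p : ℝ) ^ (n + 1) - 1 - bcone f p) * ((p : ℝ) - 1) * vr p := by
    have h3 : ∀ x ∈ YY f p, ∑ z ∈ YY f p, g x z =
        ((p : ℝ) ^ (n + 1) - 1 - bcone f p) * vr p ^ 2 + ((p : ℝ) - 1) * vr p := by
      intro x hx
      simp only [hg]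
      rw [Finset.sum_add_distrib, Finset.sum_const, nsmul_eq_mul, card_YY, ← Finset.sum_mul,
        sum_rl hf x hx]
    rw [Finset.sum_congr rfl h3, Finset.sum_const, nsmul_eq_mul, card_YY]
    ring
  have s1 : ∑ x ∈ YY f p, ∑ y ∈ YY f p, ∑ z ∈ YY f p, ∑ w ∈ YY f p, rl x y * rl z w * g x z =
      ((p : ℝ) - 1) ^ 2 * ∑ x ∈ YY f p, ∑ z ∈ YY f p, g x z := by
    rw [Finset.mul_sum]
    refine Finset.sum_congr rfl fun x hx => ?_
    have h3 : ∀ y ∈ YY f p, ∑ z ∈ YY f p, ∑ w ∈ YY f p, rl x y * rl z w * g x z =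
        rl x y * (((p : ℝ) - 1) * ∑ z ∈ YY f p, g x z) := by
      intro y _
      rw [Finset.mul_sum, Finset.mul_sum]
      refine Finset.sum_congr rfl fun z hz => ?_
      rw [← Finset.sum_mul, ← Finset.mul_sum, sum_rl hf z hz]
      ring
    rw [Finset.sum_congr rfl h3, ← Finset.sum_mul, sum_rl hf x hx]
    ring
  have s2 : ∑ x ∈ YY f p, ∑ y ∈ YY f p, ∑ z ∈ YY f p, ∑ w ∈ YY f p, rl x z * rl y w * g x y =
      ((p : ℝ) - 1) ^ 2 * ∑ x ∈ YY f p, ∑ z ∈ YY f p, g x z := by
    rw [Finset.mul_sum]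
    refine Finset.sum_congr rfl fun x hx => ?_
    rw [Finset.mul_sum]
    refine Finset.sum_congr rfl fun y hy => ?_
    have h3 : ∀ z ∈ YY f p, ∑ w ∈ YY f p, rl x z * rl y w * g x y =
        rl x z * (((p : ℝ) - 1) * g x y) := by
      intro z _
      rw [← Finset.sum_mul, ← Finset.mul_sum, sum_rl hf y hy]
      ring
    rw [Finset.sum_congr rfl h3, ← Finset.sum_mul, sum_rl hf x hx]
    ring
  have s3 : ∑ x ∈ YY f p, ∑ y ∈ YY f p, ∑ z ∈ YY f p, ∑ w ∈ YY f p, rl x w * rl y z * g x y =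
      ((p : ℝ) - 1) ^ 2 * ∑ x ∈ YY f p, ∑ z ∈ YY f p, g x z := by
    rw [Finset.mul_sum]
    refine Finset.sum_congr rfl fun x hx => ?_
    rw [Finset.mul_sum]
    refine Finset.sum_congr rfl fun y hy => ?_
    have h3 : ∀ z ∈ YY f p, ∑ w ∈ YY f p, rl x w * rl y z * g x y =
        rl y z * (((p : ℝ) - 1) * g x y) := by
      intro z _
      rw [← Finset.sum_mul, ← Finset.sum_mul, sum_rl hf x hx]
      ring
    rw [Finset.sum_congr rfl h3, ← Finset.sum_mul, sum_rl hf y hy]
    ring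
  have h5 : ((∑ x ∈ YY f p, ∑ y ∈ YY f p, ∑ z ∈ YY f p, ∑ w ∈ YY f p,
      rl x y * rl z w * g x z) +
      (∑ x ∈ YY f p, ∑ y ∈ YY f p, ∑ z ∈ YY f p, ∑ w ∈ YY f p, rl x z * rl y w * g x y) +
      (∑ x ∈ YY f p, ∑ y ∈ YY f p, ∑ z ∈ YY f p, ∑ w ∈ YY f p, rl x w * rl y z * g x y)) * M =
      ∑ x ∈ YY f p, ∑ y ∈ YY f p, ∑ z ∈ YY f p, ∑ w ∈ YY f p,
        (rl x y * rl z w * g x z + rl x z * rl y w * g x y + rl x w * rl y z * g x y) * M := by
    rw [add_mul, add_mul]
    simp only [Finset.sum_mul, add_mul, Finset.sum_add_distrib]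
  rw [← h5, s1, s2, s3, key]
  ring

end

end Pool.Agent.Y722.PC
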