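import Pool.Agent.Y722.PC.Products
import Pool.Agent.Y722.LS.Planes

/-!
# All plane curves of given degrees
-/

set_option autoImplicit false

namespace Pool.Agent.Y722.PC

open Finset Pool.Agent.Y722.HS Pool.Agent.Y722.LS

/-- The value of a form, by its coefficients. -/
theorem eval_hom' {n D : ℕ} {R : Type*} [CommRing R] (P : MvPolynomial (Fin (n + 1)) R)
    (hP : P.IsHomogeneous D) (x : Fin (n + 1) → R) :
    MvPolynomial.eval x P = ∑ ν : Mon n D, P.coeff (toFs ν) * mev x ν := by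
  classical
  rw [MvPolynomial.eval_eq']
  have h1 : ∀ ν : Mon n D, P.coeff (toFs ν) * mev x ν =
      (fun m : Fin (n + 1) →₀ ℕ => P.coeff m * ∏ i, x i ^ m i) (toFs ν) := by
    intro ν
    simp [mev, toFs]
  rw [Finset.sum_congr rfl fun ν _ => h1 ν, ← Finset.sum_image (s := Finset.univ)
    (f := fun m : Fin (n + 1) →₀ ℕ => P.coeff m * ∏ i, x i ^ m i)
    (g := toFs (n := n) (D := D)) (fun a _ b _ h => toFs_inj h)]
  apply Finset.sum_subset
  · intro m hm
    rw [Finset.mem_image]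
    have h2 : ∑ i, m i = D := by
      have h3 := hP (MvPolynomial.mem_support_iff.mp hm)
      rw [Finsupp.weight_apply, Finsupp.sum_fintype _ _ (fun i => by simp)] at h3
      simpa using h3
    refine ⟨mkMon (fun i => m i) h2, Finset.mem_univ _, ?_⟩
    ext i
    simp [toFs]
  · intro m _ hm
    rw [MvPolynomial.notMem_support_iff.mp hm]
    simp

section
variable {n : ℕ}

theorem eval_lform_monp {d : ℕ} {R : Type*} [CommRing R] (c : Mon n d → R)
    (x : Fin (n + 1) → R) :
    MvPolynomial.eval x (lform (fun μ : Mon n d => monp μ) c) = ∑ μ, c μ * mev x μ := by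
  rw [eval_lform]
  unfold lval
  exact Finset.sum_congr rfl fun μ _ => by rw [aeval_monp]

theorem lform_monp {d : ℕ} {R : Type*} [CommRing R] (c : Mon n d → R) :
    lform (fun μ : Mon n d => monp μ) c = form c := by
  unfold lform form
  refine Finset.sum_congr rfl fun μ _ => ?_
  congr 1
  simp [monp, map_prod]

/-- The forms of degree at least three separate four points. -/
theorem separates4_monp (d : ℕ) (hd : 3 ≤ d) (p : ℕ) [Fact p.Prime] :
    Separates4 (fun μ : Mon n d => monp μ) p := by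
  rintro x y ⟨μ, hμ⟩ hy
  have hx : x ≠ 0 := by
    rintro rfl
    obtain ⟨i, j, hij⟩ := hy 0
    simp at hij
  obtain ⟨k, hk⟩ : ∃ k, x k ≠ 0 := Function.ne_iff.mp hx
  choose i j hij using hy
  set ℓ : Fin 3 → MvPolynomial (Fin (n + 1)) (ZMod p) := fun s =>
    MvPolynomial.C (y s (j s)) * MvPolynomial.X (i s) -
      MvPolynomial.C (y s (i s)) * MvPolynomial.X (j s) with hℓ
  have hℓh : ∀ s, (ℓ s).IsHomogeneous 1 := by
    intro s
    refine MvPolynomial.IsHomogeneous.sub ?_ ?_
    · have := (MvPolynomial.isHomogeneous_C (Fin (n + 1)) (y s (j s))).mul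
        (MvPolynomial.isHomogeneous_X (ZMod p) (i s))
      rwa [zero_add] at this
    · have := (MvPolynomial.isHomogeneous_C (Fin (n + 1)) (y s (i s))).mul
        (MvPolynomial.isHomogeneous_X (ZMod p) (j s))
      rwa [zero_add] at this
  have hev : ∀ (s : Fin 3) (z : Fin (n + 1) → ZMod p), MvPolynomial.eval z (ℓ s) =
      y s (j s) * z (i s) - y s (i s) * z (j s) := by
    intro s z
    simp [hℓ]
  set Q : MvPolynomial (Fin (n + 1)) (ZMod p) := (∏ s, ℓ s) * MvPolynomial.X k ^ (d - 3) with hQ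
  have hQh : Q.IsHomogeneous d := by
    have h1 := MvPolynomial.IsHomogeneous.prod Finset.univ ℓ (fun _ => 1) (fun s _ => hℓh s)
    have h2 := (MvPolynomial.isHomogeneous_X (ZMod p) k).pow (d - 3)
    have h3 := h1.mul h2
    have h4 : ∑ _s : Fin 3, 1 + 1 * (d - 3) = d := by simp; omega
    rw [h4] at h3
    exact h3
  refine ⟨fun μ => Q.coeff (toFs μ), ?_, ?_⟩
  · rw [eval_lform_monp, ← eval_hom' Q hQh, hQ, map_mul, map_prod, map_pow, MvPolynomial.eval_X]
    refine mul_ne_zero (Finset.prod_ne_zero_iff.mpr fun s _ => ?_) (pow_ne_zero _ hk)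
    rw [hev]
    intro h
    apply hij s
    rw [mul_comm (x (i s)), mul_comm (x (j s))]
    exact sub_eq_zero.mp h
  · intro s
    rw [eval_lform_monp, ← eval_hom' Q hQh, hQ, map_mul, map_prod]
    have : ∏ t, MvPolynomial.eval (y s) (ℓ t) = 0 := by
      apply Finset.prod_eq_zero (Finset.mem_univ s)
      rw [hev]
      ring
    rw [this, zero_mul]

theorem bcone_monp (d : ℕ) (p : ℕ) [Fact p.Prime] :
    bcone (fun μ : Mon n d => monp μ) p = 0 := by
  unfold bcone
  rw [Nat.card_eq_zero]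
  left
  constructor
  rintro ⟨x, hx, h⟩
  obtain ⟨i, hi⟩ : ∃ i, x i ≠ 0 := Function.ne_iff.mp hx
  have hs : ∑ j : Fin (n + 1), (if j = i then d else 0) = d := by simp
  have h2 := h (mkMon _ hs)
  rw [aeval_monp] at h2
  unfold mev at h2
  obtain ⟨j, _, hj⟩ := Finset.prod_eq_zero_iff.mp h2
  rw [mkMon_apply] at hj
  split_ifs at hj with hji
  · subst hji
    exact pow_ne_zero _ hi hj
  · simp at hj

/-- The Fermat form is smooth. -/
theorem smooth_fermat (d : ℕ) (hd : 1 ≤ d) :
    IsSmooth (lform (fun μ : Mon n d => monp μ) (fun μ => ((fermat n d ℤ μ : ℤ) : ℂ))) := by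
  rw [lform_monp]
  have h1 : (fun μ : Mon n d => ((fermat n d ℤ μ : ℤ) : ℂ)) = fermat n d ℂ := by
    funext μ
    unfold fermat
    split_ifs <;> simp
  rw [h1]
  apply smooth_of_det hd
  rw [T_fermat, Matrix.det_diagonal, Finset.prod_const]
  apply pow_ne_zero
  exact_mod_cast (by omega : d ≠ 0)

end

/-- **Products of plane curves of degrees `d i ≥ 3`**. -/
theorem planeCurves {k r : ℕ} (d : Fin k → ℕ) (hd : ∀ i, 3 ≤ d i) (σ : Fin r → Fin k) (b : ℕ) :
    ∃ C : ℝ, ∀ H : ℕ, 2 ≤ H → ∀ S ⊆ box (Σ i, Mon 2 (d i)) H,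
      ∀ (γ : ((Σ i, Mon 2 (d i)) → ℤ) → ℕ → Fin b → ℂ) (ε : ((Σ i, Mon 2 (d i)) → ℤ) → ℝ),
      (∀ c ∈ S, IsFrobenius2 (fun i (μ : Mon 2 (d i)) => monp μ) σ b c (γ c)) →
      (∀ c ∈ S, 1 / Real.log H ≤ ε c ∧ ε c ≤ 1) →
      ∑ c ∈ S, (Real.log ‖LP (γ c) (2 + ε c)‖ - (r + eqPairs σ) * Real.log (1 / ε c)) ^ 2 ≤
        C * (box (Σ i, Mon 2 (d i)) H).card :=
  products (d := d) (C0 := 0) (fun i => by have := hd i; omega) (fun i μ => monp_hom μ)
    (fun i => fermat 2 (d i) ℤ) (fun i => smooth_fermat (d i) (by have := hd i; omega)) 0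
    (fun i p hp _ => by have := Fact.mk hp; exact separates4_monp (d i) (hd i) p)
    (fun i p hp _ => by
      have := Fact.mk hp
      rw [bcone_monp]
      simp) σ b

end Pool.Agent.Y722.PC
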